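import Pool.Agent.H230R4.BSD.TNF
import Pool.Agent.H230R4.BSD.TMul

/-!
# The leading coefficient of `L(E/K, s)` at `s = 1` as a limit point of truncated Euler products

Let `E : y² = x³ + a x + b` be an elliptic curve over a number field `K`, `a, b` integral (for instance a
curve over `ℚ`, considered over `K`), and suppose that its `L`-function, the product over the places
which do not divide `2 (4 a³ + 27 b²)`, has an entire continuation `F`.  Let `m` be its order and
`l = lim F(s) / (s - 1) ^ m` its leading coefficient at `s = 1`.  Let `T(x)` be the sum of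
`-t_k(v) / (k N v ^ k)` over the pairs of a good place `v` and a `k ≥ 1` with `N v ^ k ≤ x`, where
`t_k(v) = N v ^ k + 1 - #E(k_{v, k})` is the trace of the `k`-th power of Frobenius; `e ^ (-T(x))` is
the Euler product at `s = 1` truncated at the prime powers `≤ x`, and one expects
`e ^ (-T(x)) (e ^ γ log x) ^ m → |l|`.

No hypothesis on the growth of `F` or on its zeros is made, unless said explicitly.  We prove:

1. the upper limit of `T(x) - m log log x`, and also the upper limit of its logarithmic averages
`LM(x)`, is at least `m γ - log |l|`;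

2. if `F` has no real zero `σ > 1`, then `m γ - log |l|` is a limit point of `T(x) - m log log x` and
of its logarithmic averages; in other words `|l|` is the limit of `e ^ (-T(x)) (e ^ γ log x) ^ m` along
a sequence of `x` tending to infinity;

3. if `T(x) - m log log x` is bounded above (or if it is bounded below and `F` has no real zero
`σ > 1`), then `F` has no zeros with `Re s > 1` and the logarithmic averages of `T(x) - m log log x`
converge to `m γ - log |l|`.

Proof.  The Dirichlet series of the partial sums (for the averages: of the sums of the partial sums) of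
`±(m / p - t)` has nonnegative coefficients from some point on if the assertion is wrong; by Landau's
theorem (core of the library `Pool.Agent.H438R3.BSD`, helper438) the representation of `F` by this
series extends to `Re s > 1`, and its behaviour for `s → 1+` is known with the exact constant (Mertens).
For 3 the theorem of Karamata is applied to this series.
-/

set_option autoImplicit false

open Filter Topology NumberField

namespace Pool.Agent.Results.MP_f50388_nt.LimitPoints

open Pool.Agent.H438R3.BSD.NF (IsL)
open Pool.Agent.H230R4.BSD (LM)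
open Pool.Agent.H230R4.BSD.TNF (T)

/-- See the introduction. -/
theorem result (K : Type) [Field K] [NumberField K] (a b : 𝓞 K)
    (_hab : 4 * a ^ 3 + 27 * b ^ 2 ≠ 0) (F : ℂ → ℂ) (hF : IsL a b F) :
    ∃ (m : ℕ) (l : ℂ), analyticOrderAt F 1 = m ∧ l ≠ 0 ∧
    Tendsto (fun s => F s / (s - 1) ^ m) (𝓝[≠] 1) (𝓝 l) ∧
    (∀ c < m * Real.eulerMascheroniConstant - Real.log ‖l‖,
      (∃ᶠ n : ℕ in atTop, c < T a b n - m * Real.log (Real.log n)) ∧
      ∃ᶠ n : ℕ in atTop, c < LM (T a b) m n) ∧
    ((∀ σ : ℝ, 1 < σ → F σ ≠ 0) →
      (∃ φ : ℕ → ℕ, StrictMono φ ∧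
        Tendsto (fun n => (Real.exp Real.eulerMascheroniConstant * Real.log (φ n)) ^ m *
          Real.exp (-T a b (φ n))) atTop (𝓝 ‖l‖)) ∧
      ∃ φ : ℕ → ℕ, StrictMono φ ∧ Tendsto (fun n => LM (T a b) m (φ n)) atTop
        (𝓝 (m * Real.eulerMascheroniConstant - Real.log ‖l‖))) ∧
    ((∃ C, ∀ᶠ n : ℕ in atTop, T a b n - m * Real.log (Real.log n) ≤ C) ∨
      ((∀ σ : ℝ, 1 < σ → F σ ≠ 0) ∧
        ∃ C, ∀ᶠ n : ℕ in atTop, C ≤ T a b n - m * Real.log (Real.log n)) →
      (∀ s : ℂ, 1 < s.re → F s ≠ 0) ∧
      Tendsto (LM (T a b) m) atTop (𝓝 (m * Real.eulerMascheroniConstant - Real.log ‖l‖))) := by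
  obtain ⟨m, l, hm, hl, hlim, h1, h2, h3⟩ := Pool.Agent.H230R4.BSD.TNF.main a b hF
  refine ⟨m, l, hm, hl, hlim, h1, fun hreal => ?_, h3⟩
  obtain ⟨⟨φ, hφ, h4⟩, h5⟩ := h2 hreal
  exact ⟨⟨φ, hφ, Pool.Agent.H230R4.BSD.mulT hl hφ h4⟩, h5⟩

end Pool.Agent.Results.MP_f50388_nt.LimitPoints
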